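import Pool.Agent.T2H57.IV.Defs

/-! # Paths and tripods -/

set_option autoImplicit false

namespace Pool.Agent.T2H57.IV

open Set Topology

variable {X : Type} [TopologicalSpace X]

theorem cut {T A B : Set X} {x a b : X} (hA : IsClosed A) (hB : IsClosed B) (hT : T \ {x} ⊆ A ∪ B)
    (hAB : A ∩ B ⊆ {x}) (ha : a ∈ A) (hax : a ≠ x) (haT : a ∈ T) (hb : b ∈ B) (hbx : b ≠ x) (hbT : b ∈ T) :
    ¬ IsPreconnected (T \ {x}) := by
  intro h
  rw [isPreconnected_closed_iff] at h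
  obtain ⟨y, hy, hyA, hyB⟩ := h A B hA hB hT ⟨a, ⟨haT, hax⟩, ha⟩ ⟨b, ⟨hbT, hbx⟩, hb⟩
  exact hy.2 (hAB ⟨hyA, hyB⟩)

theorem comp_ne {T A B : Set X} {x a b : X} (hA : IsClosed A) (hB : IsClosed B) (hT : T \ {x} ⊆ A ∪ B)
    (hAB : A ∩ B ⊆ {x}) (ha : a ∈ A) (hax : a ≠ x) (haT : a ∈ T) (hb : b ∈ B) (hbx : b ≠ x) (hbT : b ∈ T) :
    connectedComponentIn (T \ {x}) a ≠ connectedComponentIn (T \ {x}) b := by
  intro h
  have h1 := isPreconnected_connectedComponentIn (F := T \ {x}) (x := a)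
  have ha2 : a ∈ connectedComponentIn (T \ {x}) a := mem_connectedComponentIn ⟨haT, hax⟩
  have hb2 : b ∈ connectedComponentIn (T \ {x}) a := by
    rw [h]
    exact mem_connectedComponentIn ⟨hbT, hbx⟩
  have hsub := connectedComponentIn_subset (T \ {x}) a
  rw [isPreconnected_closed_iff] at h1
  obtain ⟨y, hy, hyA, hyB⟩ := h1 A B hA hB (hsub.trans hT) ⟨a, ha2, ha⟩ ⟨b, hb2, hb⟩
  exact (hsub hy).2 (hAB ⟨hyA, hyB⟩)

theorem comp_eq {F U : Set X} {a b : X} (hU : IsPreconnected U) (hUF : U ⊆ F) (ha : a ∈ U) (hb : b ∈ U) :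
    connectedComponentIn F a = connectedComponentIn F b :=
  connectedComponentIn_eq (hU.subset_connectedComponentIn ha hUF hb)

theorem not_branch {T U V : Set X} {x : X} (hU : IsPreconnected U) (hV : IsPreconnected V)
    (hUT : U ⊆ T \ {x}) (hVT : V ⊆ T \ {x}) (hT : T \ {x} ⊆ U ∪ V) : ¬ IsBranch T x := by
  rintro ⟨-, a, ha, b, hb, c, hc, h1, h2, h3⟩
  rcases hT ha with ha | ha <;> rcases hT hb with hb | hb <;> rcases hT hc with hc | hc
  · exact h1 (comp_eq hU hUT ha hb)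
  · exact h1 (comp_eq hU hUT ha hb)
  · exact h2 (comp_eq hU hUT ha hc)
  · exact h3 (comp_eq hV hVT hb hc)
  · exact h3 (comp_eq hU hUT hb hc)
  · exact h2 (comp_eq hV hVT ha hc)
  · exact h1 (comp_eq hV hVT ha hb)
  · exact h1 (comp_eq hV hVT ha hb)

/-- injective continuous curves on `[a, b]` -/
structure Br (α : ℝ → X) (a b : ℝ) : Prop where
  lt : a < b
  cont : ContinuousOn α (Icc a b)
  inj : InjOn α (Icc a b)

namespace Br

variable {α : ℝ → X} {a b : ℝ}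

theorem arc (h : Br α a b) : Arc (α '' Icc a b) (α a) (α b) := by
  have hba : 0 < b - a := sub_pos.mpr h.lt
  have hmaps : MapsTo (fun s : ℝ => a + (b - a) * s) (Icc 0 1) (Icc a b) := by
    intro s hs
    constructor
    · have := mul_nonneg hba.le hs.1
      simp only
      linarith
    · have := mul_le_mul_of_nonneg_left hs.2 hba.le
      simp only
      linarith
  refine ⟨fun s => α (a + (b - a) * s), ?_, ?_, ?_, ?_, ?_⟩
  · exact h.cont.comp (by fun_prop) hmaps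
  · intro s hs t ht e
    have := h.inj (hmaps hs) (hmaps ht) e
    simp only at this
    have h2 : (b - a) * s = (b - a) * t := by linarith
    exact mul_left_cancel₀ hba.ne' h2
  · ext y
    constructor
    · rintro ⟨s, hs, rfl⟩
      exact ⟨_, hmaps hs, rfl⟩
    · rintro ⟨u, hu, rfl⟩
      refine ⟨(u - a) / (b - a), ⟨div_nonneg (by linarith [hu.1]) hba.le, ?_⟩, ?_⟩
      · rw [div_le_one hba]
        linarith [hu.2]
      · simp only
        congr 1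
        field_simp
        ring
  · simp only
    congr 1
    ring
  · simp only
    congr 1
    ring

theorem arc' (h : Br α a b) : Arc (α '' Icc a b) (α b) (α a) := by
  obtain ⟨γ, h1, h2, h3, h4, h5⟩ := h.arc
  have hmaps : MapsTo (fun s : ℝ => 1 - s) (Icc 0 1) (Icc 0 1) := by
    intro s hs
    constructor
    · simp only
      linarith [hs.2]
    · simp only
      linarith [hs.1]
  refine ⟨fun s => γ (1 - s), ?_, ?_, ?_, ?_, ?_⟩
  · exact h1.comp (by fun_prop) hmaps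
  · intro s hs t ht e
    have := h2 (hmaps hs) (hmaps ht) e
    simp only at this
    linarith
  · rw [← h3]
    ext y
    constructor
    · rintro ⟨s, hs, rfl⟩
      exact ⟨_, hmaps hs, rfl⟩
    · rintro ⟨u, hu, rfl⟩
      exact ⟨1 - u, hmaps hu, by simp⟩
  · simp only [sub_zero]
    exact h5
  · simp only [sub_self]
    exact h4

theorem closed [T2Space X] (h : Br α a b) {c d : ℝ} (hc : a ≤ c) (hd : d ≤ b) : IsClosed (α '' Icc c d) :=
  (isCompact_Icc.image_of_continuousOn (h.cont.mono (Icc_subset_Icc hc hd))).isClosed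

theorem pre (h : Br α a b) {s : Set ℝ} (hs : IsPreconnected s) (hsub : s ⊆ Icc a b) : IsPreconnected (α '' s) :=
  hs.image α (h.cont.mono hsub)

theorem inter (h : Br α a b) {s t : Set ℝ} (hs : s ⊆ Icc a b) (ht : t ⊆ Icc a b) :
    α '' s ∩ α '' t = α '' (s ∩ t) := (h.inj.image_inter hs ht).symm

theorem ne (h : Br α a b) {u v : ℝ} (hu : u ∈ Icc a b) (hv : v ∈ Icc a b) (huv : u ≠ v) : α u ≠ α v :=
  fun e => huv (h.inj hu hv e)

theorem notMem (h : Br α a b) {u : ℝ} {s : Set ℝ} (hu : u ∈ Icc a b) (hs : s ⊆ Icc a b) (hus : u ∉ s) :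
    α u ∉ α '' s := by
  rintro ⟨v, hv, e⟩
  rw [h.inj (hs hv) hu e] at hv
  exact hus hv

/-! paths -/

theorem tree (h : Br α a b) : FTree (α '' Icc a b) := by
  have h1 := FTree.add {α a} _ _ _ (FTree.pt (α a)) h.arc (by
    rw [inter_eq_left]
    rintro _ rfl
    exact ⟨a, ⟨le_refl _, h.lt.le⟩, rfl⟩)
  have h2 : α a ∈ α '' Icc a b := ⟨a, ⟨le_refl _, h.lt.le⟩, rfl⟩
  rw [singleton_union, insert_eq_of_mem h2] at h1
  exact h1

theorem cutp [T2Space X] (h : Br α a b) {u : ℝ} (hu : u ∈ Ioo a b) : ¬ IsPreconnected (α '' Icc a b \ {α u}) := by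
  have hua : u ∈ Icc a b := ⟨hu.1.le, hu.2.le⟩
  have ha : a ∈ Icc a b := ⟨le_refl _, h.lt.le⟩
  have hb : b ∈ Icc a b := ⟨h.lt.le, le_refl _⟩
  apply cut (A := α '' Icc a u) (B := α '' Icc u b) (a := α a) (b := α b)
    (h.closed le_rfl hu.2.le) (h.closed hu.1.le le_rfl)
  · rintro _ ⟨⟨v, hv, rfl⟩, -⟩
    rcases le_total v u with hvu | hvu
    · exact Or.inl ⟨v, ⟨hv.1, hvu⟩, rfl⟩
    · exact Or.inr ⟨v, ⟨hvu, hv.2⟩, rfl⟩
  · rw [h.inter (Icc_subset_Icc le_rfl hu.2.le) (Icc_subset_Icc hu.1.le le_rfl)]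
    rintro _ ⟨v, ⟨hv1, hv2⟩, rfl⟩
    have : v = u := le_antisymm hv1.2 hv2.1
    rw [this]
    rfl
  · exact ⟨a, ⟨le_refl _, hu.1.le⟩, rfl⟩
  · exact h.ne ha hua hu.1.ne
  · exact ⟨a, ha, rfl⟩
  · exact ⟨b, ⟨hu.2.le, le_refl _⟩, rfl⟩
  · exact h.ne hb hua hu.2.ne'
  · exact ⟨b, hb, rfl⟩

theorem ends [T2Space X] (h : Br α a b) {x : X} (hx : IsEnd (α '' Icc a b) x) : x = α a ∨ x = α b := by
  obtain ⟨⟨u, hu, rfl⟩, hp⟩ := hx
  rcases eq_or_lt_of_le hu.1 with h1 | h1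
  · left; rw [h1]
  rcases eq_or_lt_of_le hu.2 with h2 | h2
  · right; rw [h2]
  exact absurd hp (h.cutp ⟨h1, h2⟩)

theorem diff (h : Br α a b) {u : ℝ} (hu : u ∈ Icc a b) : α '' Icc a b \ {α u} = α '' Ico a u ∪ α '' Ioc u b := by
  ext y
  constructor
  · rintro ⟨⟨v, hv, rfl⟩, hne⟩
    rcases lt_trichotomy v u with hvu | hvu | hvu
    · exact Or.inl ⟨v, ⟨hv.1, hvu⟩, rfl⟩
    · exact absurd (by rw [hvu]; rfl) hne
    · exact Or.inr ⟨v, ⟨hvu, hv.2⟩, rfl⟩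
  · rintro (⟨v, hv, rfl⟩ | ⟨v, hv, rfl⟩)
    · have hv' : v ∈ Icc a b := ⟨hv.1, hv.2.le.trans hu.2⟩
      exact ⟨⟨v, hv', rfl⟩, h.ne hv' hu hv.2.ne⟩
    · have hv' : v ∈ Icc a b := ⟨hu.1.trans hv.1.le, hv.2⟩
      exact ⟨⟨v, hv', rfl⟩, h.ne hv' hu hv.1.ne'⟩

theorem pre_left (h : Br α a b) : IsPreconnected (α '' Icc a b \ {α a}) := by
  rw [h.diff ⟨le_refl _, h.lt.le⟩, Ico_self, image_empty, empty_union]
  exact h.pre isPreconnected_Ioc Ioc_subset_Icc_self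

theorem pre_right (h : Br α a b) : IsPreconnected (α '' Icc a b \ {α b}) := by
  rw [h.diff ⟨h.lt.le, le_refl _⟩, Ioc_self, image_empty, union_empty]
  exact h.pre isPreconnected_Ico Ico_subset_Icc_self

theorem nobranch (h : Br α a b) (x : X) : ¬ IsBranch (α '' Icc a b) x := by
  intro hx
  obtain ⟨u, hu, rfl⟩ := hx.1
  have e := h.diff hu
  refine not_branch (U := α '' Ico a u) (V := α '' Ioc u b) ?_ ?_ ?_ ?_ e.subset hx
  · exact h.pre isPreconnected_Ico (fun v hv => ⟨hv.1, hv.2.le.trans hu.2⟩)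
  · exact h.pre isPreconnected_Ioc (fun v hv => ⟨hu.1.trans hv.1.le, hv.2⟩)
  · rw [e]; exact subset_union_left
  · rw [e]; exact subset_union_right

end Br

/-- tripods: the curve `β` on `[c, d]` ends at the inner point `α m` of the curve `α` -/
structure Tri (α β : ℝ → X) (a b c d m : ℝ) : Prop where
  ha : Br α a b
  hb : Br β c d
  hm : m ∈ Ioo a b
  eq : β d = α m
  inter : α '' Icc a b ∩ β '' Icc c d ⊆ {α m}

namespace Tri

variable {α β : ℝ → X} {a b c d m : ℝ}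

/-- the tripod -/
def T (α β : ℝ → X) (a b c d : ℝ) : Set X := α '' Icc a b ∪ β '' Icc c d

theorem mI (h : Tri α β a b c d m) : m ∈ Icc a b := ⟨h.hm.1.le, h.hm.2.le⟩
theorem aI (h : Tri α β a b c d m) : a ∈ Icc a b := ⟨le_refl _, h.ha.lt.le⟩
theorem bI (h : Tri α β a b c d m) : b ∈ Icc a b := ⟨h.ha.lt.le, le_refl _⟩
theorem cI (h : Tri α β a b c d m) : c ∈ Icc c d := ⟨le_refl _, h.hb.lt.le⟩
theorem dI (h : Tri α β a b c d m) : d ∈ Icc c d := ⟨h.hb.lt.le, le_refl _⟩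

theorem tree (h : Tri α β a b c d m) : FTree (T α β a b c d) := by
  refine FTree.add _ _ _ _ h.ha.tree h.hb.arc' ?_
  rw [h.eq]
  apply subset_antisymm h.inter
  rintro _ rfl
  exact ⟨⟨m, h.mI, rfl⟩, ⟨d, h.dI, h.eq⟩⟩

/-- points of `α` on `β` -/
theorem ab (h : Tri α β a b c d m) {u v : ℝ} (hu : u ∈ Icc a b) (hv : v ∈ Icc c d) (e : α u = β v) : u = m ∧ v = d := by
  have h1 : α u ∈ ({α m} : Set X) := h.inter ⟨⟨u, hu, rfl⟩, ⟨v, hv, e.symm⟩⟩
  have h2 : u = m := h.ha.inj hu h.mI h1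
  refine ⟨h2, h.hb.inj hv h.dI ?_⟩
  rw [h.eq, ← e, h2]

theorem branch [T2Space X] (h : Tri α β a b c d m) : IsBranch (T α β a b c d) (α m) := by
  have hA := h.ha.closed (c := a) (d := m) le_rfl h.hm.2.le
  have hB := h.ha.closed (c := m) (d := b) h.hm.1.le le_rfl
  have hC := h.hb.closed (c := c) (d := d) le_rfl le_rfl
  have i1 : α '' Icc a m ∩ α '' Icc m b ⊆ {α m} := by
    rw [h.ha.inter (Icc_subset_Icc le_rfl h.hm.2.le) (Icc_subset_Icc h.hm.1.le le_rfl)]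
    rintro _ ⟨v, ⟨hv1, hv2⟩, rfl⟩
    rw [le_antisymm hv1.2 hv2.1]
    rfl
  have i2 : α '' Icc a m ∩ β '' Icc c d ⊆ {α m} :=
    (inter_subset_inter_left _ (image_mono (Icc_subset_Icc le_rfl h.hm.2.le))).trans h.inter
  have i3 : α '' Icc m b ∩ β '' Icc c d ⊆ {α m} :=
    (inter_subset_inter_left _ (image_mono (Icc_subset_Icc h.hm.1.le le_rfl))).trans h.inter
  have hT : T α β a b c d \ {α m} ⊆ α '' Icc a m ∪ α '' Icc m b ∪ β '' Icc c d := by
    rintro y ⟨hy | hy, -⟩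
    · obtain ⟨v, hv, rfl⟩ := hy
      left
      rcases le_total v m with hvu | hvu
      · exact Or.inl ⟨v, ⟨hv.1, hvu⟩, rfl⟩
      · exact Or.inr ⟨v, ⟨hvu, hv.2⟩, rfl⟩
    · exact Or.inr hy
  have na : α a ≠ α m := h.ha.ne h.aI h.mI h.hm.1.ne
  have nb : α b ≠ α m := h.ha.ne h.bI h.mI h.hm.2.ne'
  have nc : β c ≠ α m := by
    intro e
    have := (h.ab h.mI h.cI e.symm).2
    exact h.hb.lt.ne this
  have ta : α a ∈ T α β a b c d := Or.inl ⟨a, h.aI, rfl⟩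
  have tb : α b ∈ T α β a b c d := Or.inl ⟨b, h.bI, rfl⟩
  have tc : β c ∈ T α β a b c d := Or.inr ⟨c, h.cI, rfl⟩
  refine ⟨Or.inl ⟨m, h.mI, rfl⟩, α a, ⟨ta, na⟩, α b, ⟨tb, nb⟩, β c, ⟨tc, nc⟩, ?_, ?_, ?_⟩
  · apply comp_ne (A := α '' Icc a m) (B := α '' Icc m b ∪ β '' Icc c d) hA (hB.union hC)
      (by rw [← union_assoc]; exact hT)
      (by rw [inter_union_distrib_left]; exact union_subset i1 i2)
      ⟨a, ⟨le_refl _, h.hm.1.le⟩, rfl⟩ na ta (Or.inl ⟨b, ⟨h.hm.2.le, le_refl _⟩, rfl⟩) nb tb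
  · apply comp_ne (A := α '' Icc a m) (B := α '' Icc m b ∪ β '' Icc c d) hA (hB.union hC)
      (by rw [← union_assoc]; exact hT)
      (by rw [inter_union_distrib_left]; exact union_subset i1 i2)
      ⟨a, ⟨le_refl _, h.hm.1.le⟩, rfl⟩ na ta (Or.inr ⟨c, h.cI, rfl⟩) nc tc
  · apply comp_ne (A := α '' Icc a m ∪ α '' Icc m b) (B := β '' Icc c d) (hA.union hB) hC hT
      (by rw [union_inter_distrib_right]; exact union_subset i2 i3)
      (Or.inr ⟨b, ⟨h.hm.2.le, le_refl _⟩, rfl⟩) nb tb ⟨c, h.cI, rfl⟩ nc tc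

/-- removing a point of `α` to the left of `m` -/
theorem diffl (h : Tri α β a b c d m) {u : ℝ} (hu : u ∈ Icc a b) (hum : u < m) :
    T α β a b c d \ {α u} = α '' Ico a u ∪ (α '' Ioc u b ∪ β '' Icc c d) := by
  rw [T, union_sdiff_distrib, h.ha.diff hu, union_assoc]
  congr 2
  rw [sdiff_eq_left, disjoint_singleton_right]
  rintro ⟨v, hv, e⟩
  exact hum.ne (h.ab hu hv e.symm).1

theorem diffr (h : Tri α β a b c d m) {u : ℝ} (hu : u ∈ Icc a b) (hum : m < u) :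
    T α β a b c d \ {α u} = α '' Ioc u b ∪ (α '' Ico a u ∪ β '' Icc c d) := by
  rw [T, union_sdiff_distrib, h.ha.diff hu, union_comm (α '' Ico a u), union_assoc]
  congr 2
  rw [sdiff_eq_left, disjoint_singleton_right]
  rintro ⟨v, hv, e⟩
  exact hum.ne' (h.ab hu hv e.symm).1

theorem diffb (h : Tri α β a b c d m) {v : ℝ} (hv : v ∈ Icc c d) (hvd : v < d) :
    T α β a b c d \ {β v} = β '' Ico c v ∪ (α '' Icc a b ∪ β '' Ioc v d) := by
  rw [T, union_sdiff_distrib, h.hb.diff hv, union_left_comm]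
  congr 2
  rw [sdiff_eq_left, disjoint_singleton_right]
  rintro ⟨u, hu, e⟩
  exact hvd.ne (h.ab hu hv e).2

theorem pre1 (h : Tri α β a b c d m) {s : Set ℝ} (hs : IsPreconnected s) (hsub : s ⊆ Icc a b) (hms : m ∈ s) :
    IsPreconnected (α '' s ∪ β '' Icc c d) :=
  IsPreconnected.union (α m) ⟨m, hms, rfl⟩ ⟨d, h.dI, h.eq⟩ (h.ha.pre hs hsub) (h.hb.pre isPreconnected_Icc subset_rfl)

theorem pre2 (h : Tri α β a b c d m) {s : Set ℝ} (hs : IsPreconnected s) (hsub : s ⊆ Icc c d) (hms : d ∈ s) :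
    IsPreconnected (α '' Icc a b ∪ β '' s) :=
  IsPreconnected.union (α m) ⟨m, h.mI, rfl⟩ ⟨d, hms, h.eq⟩ (h.ha.pre isPreconnected_Icc subset_rfl) (h.hb.pre hs hsub)

theorem pre_a (h : Tri α β a b c d m) : IsPreconnected (T α β a b c d \ {α a}) := by
  rw [h.diffl h.aI h.hm.1, Ico_self, image_empty, empty_union]
  exact h.pre1 isPreconnected_Ioc Ioc_subset_Icc_self ⟨h.hm.1, h.hm.2.le⟩

theorem pre_b (h : Tri α β a b c d m) : IsPreconnected (T α β a b c d \ {α b}) := by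
  rw [h.diffr h.bI h.hm.2, Ioc_self, image_empty, empty_union]
  exact h.pre1 isPreconnected_Ico Ico_subset_Icc_self ⟨h.hm.1.le, h.hm.2⟩

theorem pre_c (h : Tri α β a b c d m) : IsPreconnected (T α β a b c d \ {β c}) := by
  rw [h.diffb h.cI h.hb.lt, Ico_self, image_empty, empty_union]
  exact h.pre2 isPreconnected_Ioc Ioc_subset_Icc_self ⟨h.hb.lt, le_refl _⟩

theorem onlybranch (h : Tri α β a b c d m) {x : X} (hx : IsBranch (T α β a b c d) x) : x = α m := by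
  by_contra hne
  rcases hx.1 with ⟨u, hu, rfl⟩ | ⟨v, hv, rfl⟩
  · have hum : u ≠ m := fun e => hne (by rw [e])
    rcases lt_or_gt_of_ne hum with h1 | h1
    · have e := h.diffl hu h1
      refine not_branch ?_ ?_ ?_ ?_ e.subset hx
      · exact h.ha.pre isPreconnected_Ico (fun v hv => ⟨hv.1, hv.2.le.trans hu.2⟩)
      · exact h.pre1 isPreconnected_Ioc (fun v hv => ⟨hu.1.trans hv.1.le, hv.2⟩) ⟨h1, h.hm.2.le⟩
      · rw [e]; exact subset_union_left
      · rw [e]; exact subset_union_right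
    · have e := h.diffr hu h1
      refine not_branch ?_ ?_ ?_ ?_ e.subset hx
      · exact h.ha.pre isPreconnected_Ioc (fun v hv => ⟨hu.1.trans hv.1.le, hv.2⟩)
      · exact h.pre1 isPreconnected_Ico (fun v hv => ⟨hv.1, hv.2.le.trans hu.2⟩) ⟨h.hm.1.le, h1⟩
      · rw [e]; exact subset_union_left
      · rw [e]; exact subset_union_right
  · have hvd : v ≠ d := fun e => hne (by rw [e, h.eq])
    have h1 := lt_of_le_of_ne hv.2 hvd
    have e := h.diffb hv h1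
    refine not_branch ?_ ?_ ?_ ?_ e.subset hx
    · exact h.hb.pre isPreconnected_Ico (fun w hw => ⟨hw.1, hw.2.le.trans hv.2⟩)
    · exact h.pre2 isPreconnected_Ioc (fun w hw => ⟨hv.1.trans hw.1.le, hw.2⟩) ⟨h1, le_refl _⟩
    · rw [e]; exact subset_union_left
    · rw [e]; exact subset_union_right

theorem ends [T2Space X] (h : Tri α β a b c d m) {x : X} (hx : IsEnd (T α β a b c d) x) :
    x = α a ∨ x = α b ∨ x = β c := by
  obtain ⟨hxT, hp⟩ := hx
  by_contra hcon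
  push Not at hcon
  obtain ⟨n1, n2, n3⟩ := hcon
  have na : α a ≠ α m := h.ha.ne h.aI h.mI h.hm.1.ne
  have nb : α b ≠ α m := h.ha.ne h.bI h.mI h.hm.2.ne'
  have ta : α a ∈ T α β a b c d := Or.inl ⟨a, h.aI, rfl⟩
  have tb : α b ∈ T α β a b c d := Or.inl ⟨b, h.bI, rfl⟩
  have tc : β c ∈ T α β a b c d := Or.inr ⟨c, h.cI, rfl⟩
  have hC := h.hb.closed (c := c) (d := d) le_rfl le_rfl
  rcases hxT with ⟨u, hu, rfl⟩ | ⟨v, hv, rfl⟩
  · have hua : a < u := lt_of_le_of_ne hu.1 (fun e => n1 (by rw [e]))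
    have hub : u < b := lt_of_le_of_ne hu.2 (fun e => n2 (by rw [e]))
    have hA := h.ha.closed (c := a) (d := u) le_rfl hu.2
    have hB := h.ha.closed (c := u) (d := b) hu.1 le_rfl
    have i1 : α '' Icc a u ∩ α '' Icc u b ⊆ {α u} := by
      rw [h.ha.inter (Icc_subset_Icc le_rfl hu.2) (Icc_subset_Icc hu.1 le_rfl)]
      rintro _ ⟨v, ⟨hv1, hv2⟩, rfl⟩
      rw [le_antisymm hv1.2 hv2.1]
      rfl
    have hT : T α β a b c d \ {α u} ⊆ α '' Icc a u ∪ α '' Icc u b ∪ β '' Icc c d := by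
      rintro y ⟨hy | hy, -⟩
      · obtain ⟨v, hv, rfl⟩ := hy
        left
        rcases le_total v u with hvu | hvu
        · exact Or.inl ⟨v, ⟨hv.1, hvu⟩, rfl⟩
        · exact Or.inr ⟨v, ⟨hvu, hv.2⟩, rfl⟩
      · exact Or.inr hy
    rcases le_total u m with h1 | h1
    · -- left of `m`
      refine cut (A := α '' Icc a u) (B := α '' Icc u b ∪ β '' Icc c d) hA (hB.union hC)
        (by rw [← union_assoc]; exact hT) ?_
        ⟨a, ⟨le_refl _, hua.le⟩, rfl⟩ (Ne.symm n1) ta (Or.inl ⟨b, ⟨hub.le, le_refl _⟩, rfl⟩) (Ne.symm n2) tb hp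
      rw [inter_union_distrib_left]
      refine union_subset i1 ?_
      rintro _ ⟨⟨w, hw, rfl⟩, ⟨v, hv, e⟩⟩
      have h2 := (h.ab ⟨hw.1, hw.2.trans hu.2⟩ hv e.symm).1
      have : w = u := le_antisymm hw.2 (h2 ▸ h1)
      rw [this]
      rfl
    · refine cut (A := α '' Icc a u ∪ β '' Icc c d) (B := α '' Icc u b) (hA.union hC) hB
        (by rw [union_right_comm]; exact hT) ?_
        (Or.inl ⟨a, ⟨le_refl _, hua.le⟩, rfl⟩) (Ne.symm n1) ta ⟨b, ⟨hub.le, le_refl _⟩, rfl⟩ (Ne.symm n2) tb hp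
      rw [union_inter_distrib_right]
      refine union_subset i1 ?_
      rintro _ ⟨⟨v, hv, e⟩, ⟨w, hw, rfl⟩⟩
      have h2 := (h.ab ⟨hu.1.trans hw.1, hw.2⟩ hv e.symm).1
      have : w = u := le_antisymm (h2 ▸ h1) hw.1
      rw [this]
      rfl
  · have hvc : c < v := lt_of_le_of_ne hv.1 (fun e => n3 (by rw [e]))
    have hA := h.hb.closed (c := c) (d := v) le_rfl hv.2
    have hB := h.hb.closed (c := v) (d := d) hv.1 le_rfl
    have hD := h.ha.closed (c := a) (d := b) le_rfl le_rfl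
    refine cut (A := β '' Icc c v) (B := α '' Icc a b ∪ β '' Icc v d) hA (hD.union hB) ?_ ?_
      ⟨c, ⟨le_refl _, hvc.le⟩, rfl⟩ (Ne.symm n3) tc (Or.inl ⟨a, h.aI, rfl⟩) (Ne.symm n1) ta hp
    · rintro y ⟨hy | hy, -⟩
      · exact Or.inr (Or.inl hy)
      · obtain ⟨w, hw, rfl⟩ := hy
        rcases le_total w v with hvu | hvu
        · exact Or.inl ⟨w, ⟨hw.1, hvu⟩, rfl⟩
        · exact Or.inr (Or.inr ⟨w, ⟨hvu, hw.2⟩, rfl⟩)
    · rw [inter_union_distrib_left]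
      refine union_subset ?_ ?_
      · rintro _ ⟨⟨w, hw, e⟩, ⟨u, hu, rfl⟩⟩
        have h2 := (h.ab hu ⟨hw.1, hw.2.trans hv.2⟩ e.symm).2
        have h3 : w = v := le_antisymm hw.2 (h2 ▸ hv.2)
        rw [← e, h3]
        rfl
      · rw [h.hb.inter (Icc_subset_Icc le_rfl hv.2) (Icc_subset_Icc hv.1 le_rfl)]
        rintro _ ⟨w, ⟨hw1, hw2⟩, rfl⟩
        rw [le_antisymm hw1.2 hw2.1]
        rfl

end Tri

end Pool.Agent.T2H57.IV
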