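import Mathlib

/-! # Invariant ivy objects of quadratic polynomials: definitions -/

set_option autoImplicit false

namespace Pool.Agent.T2H57.IV

open Set Topology

/-- the sphere `ℂ ∪ {∞}` -/
abbrev S2 := OnePoint ℂ

section top

variable {X : Type} [TopologicalSpace X]

/-- `A` is an arc with endpoints `x` and `y` -/
def Arc (A : Set X) (x y : X) : Prop :=
  ∃ γ : ℝ → X, ContinuousOn γ (Icc 0 1) ∧ InjOn γ (Icc 0 1) ∧ γ '' Icc 0 1 = A ∧ γ 0 = x ∧ γ 1 = y

/-- finite topological trees: start with a point and attach finitely many arcs, each one meeting the tree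
in exactly one of its endpoints -/
inductive FTree : Set X → Prop
  | pt (x : X) : FTree {x}
  | add (T A : Set X) (x y : X) : FTree T → Arc A x y → T ∩ A = {x} → FTree (T ∪ A)

/-- endpoints of a tree -/
def IsEnd (T : Set X) (x : X) : Prop := x ∈ T ∧ IsPreconnected (T \ {x})

/-- branch points of a tree: `T \ {x}` has at least three components -/
def IsBranch (T : Set X) (x : X) : Prop :=
  x ∈ T ∧ ∃ a ∈ T \ {x}, ∃ b ∈ T \ {x}, ∃ c ∈ T \ {x},
    connectedComponentIn (T \ {x}) a ≠ connectedComponentIn (T \ {x}) b ∧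
    connectedComponentIn (T \ {x}) a ≠ connectedComponentIn (T \ {x}) c ∧
    connectedComponentIn (T \ {x}) b ≠ connectedComponentIn (T \ {x}) c

/-- the vertices: the points of `P` and the branch points -/
def Vx (P T : Set X) : Set X := P ∪ {x | IsBranch T x}

/-- spanning trees for `P` -/
structure Span (P T : Set X) : Prop where
  tree : FTree T
  sub : P ⊆ T
  ends : ∀ x, IsEnd T x → x ∈ P

/-- `T'` is the image of `T` under an isotopy of `X` which fixes the points of `P` -/
def Isotopic (P T T' : Set X) : Prop :=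
  ∃ H : unitInterval → X → X, Continuous (fun q : unitInterval × X => H q.1 q.2) ∧
    (∀ t, IsHomeomorph (H t)) ∧ (∀ x, H 0 x = x) ∧ (∀ t, ∀ x ∈ P, H t x = x) ∧ H 1 '' T = T'

/-- the isotopy class of `T` relative to `P` (among the spanning trees for `P`) -/
def cls (P T : Set X) : Set (Set X) := {T' | Span P T' ∧ Isotopic P T T'}

end top

/-- `z ↦ z ^ 2 + c` on the sphere -/
noncomputable def pm (c : ℂ) : S2 → S2 := OnePoint.map fun z => z ^ 2 + c

/-- the post-critical set `{p^n (c) : n ≥ 0} ∪ {∞}` -/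
def PS (c : ℂ) : Set S2 := {x | ∃ n : ℕ, x = (pm c)^[n] (c : S2)} ∪ {OnePoint.infty}

/-- the ivy objects: isotopy classes of spanning trees for the post-critical set -/
def Ivy (c : ℂ) : Set (Set (Set S2)) := {C | ∃ T, Span (PS c) T ∧ C = cls (PS c) T}

/-- dynamical tree pairs `(T', T)`; the critical values of `z ^ 2 + c` are `c` and `∞` -/
structure DynPair (c : ℂ) (T' T : Set S2) : Prop where
  span' : Span (PS c) T'
  span : Span (PS c) T
  map : pm c '' T' ⊆ T
  vert : pm c '' Vx (PS c) T' ⊆ Vx (PS c) T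
  crit : (c : S2) ∈ Vx (PS c) T ∧ (OnePoint.infty : S2) ∈ Vx (PS c) T

/-- the pullback relation on ivy objects -/
def Pull (c : ℂ) (C C' : Set (Set S2)) : Prop := ∃ T ∈ C, ∃ T' ∈ C', DynPair c T' T

end Pool.Agent.T2H57.IV
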