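import Pool.Agent.T2H57.IV.Iso

/-! # Three invariant ivy objects for `z ^ 2 - 2` -/

set_option autoImplicit false

namespace Pool.Agent.T2H57.IV

open Set Topology Filter

theorem pm_coe (c z : ℂ) : pm c (z : S2) = ((z ^ 2 + c : ℂ) : S2) := rfl

theorem pm_inf (c : ℂ) : pm c (OnePoint.infty : S2) = OnePoint.infty := rfl

theorem pm_m2 : pm (-2) ((-2 : ℂ) : S2) = ((2 : ℂ) : S2) := by
  rw [pm_coe]
  norm_num

theorem pm_2 : pm (-2) ((2 : ℂ) : S2) = ((2 : ℂ) : S2) := by
  rw [pm_coe]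
  norm_num

theorem iter (n : ℕ) : (pm (-2))^[n + 1] ((-2 : ℂ) : S2) = ((2 : ℂ) : S2) := by
  induction n with
  | zero => exact pm_m2
  | succ n ih => rw [Function.iterate_succ_apply', ih, pm_2]

theorem PS2 : PS (-2) = {((-2 : ℂ) : S2), ((2 : ℂ) : S2), OnePoint.infty} := by
  ext x
  constructor
  · rintro (⟨n, rfl⟩ | hx)
    · cases n with
      | zero => exact Or.inl rfl
      | succ n => exact Or.inr (Or.inl (iter n))
    · exact Or.inr (Or.inr hx)
  · rintro (hx | hx | hx)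
    · exact Or.inl ⟨0, hx⟩
    · exact Or.inl ⟨1, by rw [iter 0]; exact hx⟩
    · exact Or.inr hx

theorem mP : ((-2 : ℂ) : S2) ∈ PS (-2) := by rw [PS2]; exact Or.inl rfl
theorem bP : ((2 : ℂ) : S2) ∈ PS (-2) := by rw [PS2]; exact Or.inr (Or.inl rfl)
theorem iP : (OnePoint.infty : S2) ∈ PS (-2) := by rw [PS2]; exact Or.inr (Or.inr rfl)

theorem P_sub {T : Set S2} (h1 : ((-2 : ℂ) : S2) ∈ T) (h2 : ((2 : ℂ) : S2) ∈ T) (h3 : (OnePoint.infty : S2) ∈ T) :
    PS (-2) ⊆ T := by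
  rw [PS2]
  rintro x (hx | hx | hx)
  · rw [hx]; exact h1
  · rw [hx]; exact h2
  · rw [hx]; exact h3

theorem pmP {x : S2} (hx : x ∈ PS (-2)) : pm (-2) x ∈ PS (-2) := by
  rw [PS2] at hx
  rcases hx with hx | hx | hx
  · rw [hx, pm_m2]; exact bP
  · rw [hx, pm_2]; exact bP
  · rw [hx]; exact iP

/-- dynamical tree pairs for paths -/
theorem dyn_path {α : ℝ → S2} {a b : ℝ} (h : Br α a b) (hs : Span (PS (-2)) (α '' Icc a b))
    (hm : pm (-2) '' (α '' Icc a b) ⊆ α '' Icc a b) : DynPair (-2) (α '' Icc a b) (α '' Icc a b) := by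
  refine ⟨hs, hs, hm, ?_, Or.inl mP, Or.inl iP⟩
  rintro _ ⟨x, hx, rfl⟩
  rcases hx with hx | hx
  · exact Or.inl (pmP hx)
  · exact absurd hx (h.nobranch x)

/-! the first tree -/

noncomputable def F1 (t : ℝ) : ℂ := ((t - 3 : ℝ) : ℂ)

theorem br1 : Br (ray F1) 0 1 := by
  have hc : Continuous F1 := Complex.continuous_ofReal.comp (continuous_id.sub continuous_const)
  refine ray_br hc 3 ?_ ?_ zero_lt_one
  · intro t
    rw [F1, Complex.norm_real, Real.norm_eq_abs]
    have := abs_add_le (t - 3) 3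
    rw [sub_add_cancel, abs_of_pos (show (0 : ℝ) < 3 by norm_num)] at this
    exact this
  · intro s t e
    have : s - 3 = t - 3 := Complex.ofReal_injective e
    linarith

noncomputable def T1 : Set S2 := ray F1 '' Icc 0 1

theorem r1 : ray F1 1 = ((-2 : ℂ) : S2) := by
  have := ray_inv F1 (t := 1) one_ne_zero
  rw [one_div_one] at this
  rw [this, F1]
  norm_num

theorem r5 : ray F1 (1 / 5) = ((2 : ℂ) : S2) := by
  rw [ray_inv F1 (by norm_num), F1]
  norm_num

theorem span1 : Span (PS (-2)) T1 := by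
  refine ⟨br1.tree, P_sub ⟨1, by norm_num, r1⟩ ⟨1 / 5, by norm_num, r5⟩ ⟨0, by norm_num, ray_zero _⟩, ?_⟩
  intro x hx
  rcases br1.ends hx with h | h
  · rw [h, ray_zero]; exact iP
  · rw [h, r1]; exact mP

theorem dyn1 : DynPair (-2) T1 T1 := by
  refine dyn_path br1 span1 ?_
  rintro _ ⟨y, hy, rfl⟩
  rcases ray_elim hy with rfl | ⟨t, ht, rfl⟩
  · exact inf_mem_ray F1 le_rfl zero_le_one
  · rw [pm_coe]
    have := mem_ray F1 (t := (t - 3) ^ 2 + 1) (by nlinarith [sq_nonneg (t - 3)])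
    have e : F1 t ^ 2 + (-2) = F1 ((t - 3) ^ 2 + 1) := by
      rw [F1, F1]
      push_cast
      ring
    rw [e]
    exact this

theorem cut1 : ¬ IsPreconnected (T1 \ {((2 : ℂ) : S2)}) := by
  rw [← r5]
  exact br1.cutp (by norm_num)

/-! the second tree -/

noncomputable def F2 (t : ℝ) : ℂ := ((2 * t : ℝ) : ℂ)

theorem br2 : Br (ray F2) (-1) 1 := by
  have hc : Continuous F2 := Complex.continuous_ofReal.comp (continuous_const.mul continuous_id)
  refine ray_br hc 0 ?_ ?_ (by norm_num)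
  · intro t
    rw [F2, Complex.norm_real, Real.norm_eq_abs, abs_mul, abs_of_pos (show (0 : ℝ) < 2 by norm_num)]
    have := abs_nonneg t
    linarith
  · intro s t e
    have : 2 * s = 2 * t := Complex.ofReal_injective e
    linarith

noncomputable def T2 : Set S2 := ray F2 '' Icc (-1) 1

theorem q1 : ray F2 1 = ((2 : ℂ) : S2) := by
  have := ray_inv F2 (t := 1) one_ne_zero
  rw [one_div_one] at this
  rw [this, F2]
  norm_num

theorem qm1 : ray F2 (-1) = ((-2 : ℂ) : S2) := by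
  have := ray_inv F2 (t := -1) (by norm_num)
  rw [show (1 : ℝ) / -1 = -1 by norm_num] at this
  rw [this, F2]
  norm_num

theorem span2 : Span (PS (-2)) T2 := by
  refine ⟨br2.tree, P_sub ⟨-1, by norm_num, qm1⟩ ⟨1, by norm_num, q1⟩ ⟨0, by norm_num, ray_zero _⟩, ?_⟩
  intro x hx
  rcases br2.ends hx with h | h
  · rw [h, qm1]; exact mP
  · rw [h, q1]; exact bP

theorem dyn2 : DynPair (-2) T2 T2 := by
  refine dyn_path br2 span2 ?_
  rintro _ ⟨y, hy, rfl⟩
  rcases ray_elim2 hy with rfl | ⟨t, ht, rfl⟩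
  · exact inf_mem_ray F2 (by norm_num) zero_le_one
  · rw [pm_coe]
    have h1 : 1 ≤ t ^ 2 := by
      rw [← sq_abs]
      nlinarith
    have := mem_ray2 F2 (t := 2 * t ^ 2 - 1) (by
      rw [abs_of_nonneg (by linarith)]
      linarith)
    have e : F2 t ^ 2 + (-2) = F2 (2 * t ^ 2 - 1) := by
      rw [F2, F2]
      push_cast
      ring
    rw [e]
    exact this

theorem cut2 : ¬ IsPreconnected (T2 \ {(OnePoint.infty : S2)}) := by
  rw [← ray_zero F2]
  exact br2.cutp (by norm_num)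

theorem pre2 : IsPreconnected (T2 \ {((2 : ℂ) : S2)}) := by
  rw [← q1]
  exact br2.pre_right

/-! the tripods -/

noncomputable def al (x : ℝ) : S2 := (((x : ℝ) : ℂ) : S2)

noncomputable def leg (g : ℝ → ℝ) (t : ℝ) : ℂ := ((g (t - 1) : ℝ) : ℂ) + ((t - 1 : ℝ) : ℂ) * Complex.I

theorem leg_im (g : ℝ → ℝ) (t : ℝ) : (leg g t).im = t - 1 := by simp [leg]

theorem leg_re (g : ℝ → ℝ) (t : ℝ) : (leg g t).re = g (t - 1) := by simp [leg]

theorem tri {g : ℝ → ℝ} (hg : Continuous g) (h0 : g 0 ∈ Ioo (-2 : ℝ) 2) :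
    Tri al (ray (leg g)) (-2) 2 0 1 (g 0) := by
  have hal : Function.Injective al := fun x y e => Complex.ofReal_injective (OnePoint.coe_injective e)
  have e1 : ray (leg g) 1 = al (g 0) := by
    have := ray_inv (leg g) (t := 1) one_ne_zero
    rw [one_div_one] at this
    rw [this, al]
    congr 1
    rw [leg, sub_self]
    simp
  refine ⟨⟨by norm_num, (OnePoint.continuous_coe.comp Complex.continuous_ofReal).continuousOn, hal.injOn⟩,
    ray_br ?_ 1 ?_ ?_ zero_lt_one, h0, e1, ?_⟩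
  · unfold leg
    exact (Complex.continuous_ofReal.comp (hg.comp (continuous_id.sub continuous_const))).add
      ((Complex.continuous_ofReal.comp (continuous_id.sub continuous_const)).mul continuous_const)
  · intro t
    have h1 := Complex.abs_im_le_norm (leg g t)
    rw [leg_im] at h1
    have := abs_add_le (t - 1) 1
    rw [sub_add_cancel, abs_one] at this
    linarith
  · intro s t e
    have := congrArg Complex.im e
    rw [leg_im, leg_im] at this
    linarith
  · rintro _ ⟨⟨x, hx, rfl⟩, hy⟩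
    rcases ray_elim hy with h | ⟨t, ht, h⟩
    · exact absurd h (OnePoint.coe_ne_infty _)
    · have h1 : ((x : ℝ) : ℂ) = leg g t := OnePoint.coe_injective h
      have h2 := congrArg Complex.im h1
      have h3 := congrArg Complex.re h1
      rw [leg_im, Complex.ofReal_im] at h2
      rw [leg_re, Complex.ofReal_re, ← h2] at h3
      rw [h3]
      rfl

noncomputable def T3 (g : ℝ → ℝ) : Set S2 := Tri.T al (ray (leg g)) (-2) 2 0 1

theorem al2 : al 2 = ((2 : ℂ) : S2) := by rw [al]; norm_num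
theorem alm2 : al (-2) = ((-2 : ℂ) : S2) := by rw [al]; norm_num

theorem span3 {g : ℝ → ℝ} (hg : Continuous g) (h0 : g 0 ∈ Ioo (-2 : ℝ) 2) : Span (PS (-2)) (T3 g) := by
  have h := tri hg h0
  refine ⟨h.tree, P_sub (Or.inl ⟨-2, by norm_num, alm2⟩) (Or.inl ⟨2, by norm_num, al2⟩)
    (Or.inr ⟨0, by norm_num, ray_zero _⟩), ?_⟩
  intro x hx
  rcases h.ends hx with h | h | h
  · rw [h, alm2]; exact mP
  · rw [h, al2]; exact bP
  · rw [h, ray_zero]; exact iP

noncomputable def g0 (_ : ℝ) : ℝ := 0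
noncomputable def g1 (w : ℝ) : ℝ := √(2 + w ^ 2)

theorem g0_cont : Continuous g0 := continuous_const
theorem g1_cont : Continuous g1 := (continuous_const.add (continuous_id.pow 2)).sqrt
theorem g0_mem : g0 0 ∈ Ioo (-2 : ℝ) 2 := by
  constructor <;> norm_num [g0]
theorem g1_mem : g1 0 ∈ Ioo (-2 : ℝ) 2 := by
  have h := sq_lt 0
  have h2 := Real.sqrt_nonneg (2 + (0 : ℝ) ^ 2)
  rw [abs_zero, add_zero] at h
  constructor
  · show -2 < √(2 + 0 ^ 2)
    linarith
  · exact h

theorem pre3 {g : ℝ → ℝ} (hg : Continuous g) (h0 : g 0 ∈ Ioo (-2 : ℝ) 2) :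
    IsPreconnected (T3 g \ {((2 : ℂ) : S2)}) := by
  rw [← al2]
  exact (tri hg h0).pre_b

theorem pre3' {g : ℝ → ℝ} (hg : Continuous g) (h0 : g 0 ∈ Ioo (-2 : ℝ) 2) :
    IsPreconnected (T3 g \ {(OnePoint.infty : S2)}) := by
  rw [← ray_zero (leg g)]
  exact (tri hg h0).pre_c

theorem dyn3 : DynPair (-2) (T3 g1) (T3 g0) := by
  refine ⟨span3 g1_cont g1_mem, span3 g0_cont g0_mem, ?_, ?_, Or.inl mP, Or.inl iP⟩
  · rintro _ ⟨y, hy | hy, rfl⟩
    · obtain ⟨x, hx, rfl⟩ := hy
      refine Or.inl ⟨x ^ 2 - 2, ⟨?_, ?_⟩, ?_⟩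
      · nlinarith [sq_nonneg x]
      · nlinarith [hx.1, hx.2]
      · rw [al, al, pm_coe]
        congr 1
        push_cast
        ring
    · rcases ray_elim hy with rfl | ⟨t, ht, rfl⟩
      · exact Or.inr (inf_mem_ray _ le_rfl zero_le_one)
      · rw [pm_coe]
        have hs := Real.sqrt_nonneg (2 + (t - 1) ^ 2)
        have hq : √(2 + (t - 1) ^ 2) ^ 2 = 2 + (t - 1) ^ 2 := Real.sq_sqrt (by positivity)
        have := mem_ray (leg g0) (t := 1 + 2 * (t - 1) * √(2 + (t - 1) ^ 2)) (by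
          have : 0 ≤ 2 * (t - 1) * √(2 + (t - 1) ^ 2) := mul_nonneg (by linarith) hs
          linarith)
        have e : leg g1 t ^ 2 + (-2) = leg g0 (1 + 2 * (t - 1) * √(2 + (t - 1) ^ 2)) := by
          apply Complex.ext
          · rw [leg_re, Complex.add_re, pow_two, Complex.mul_re, leg_re, leg_im, g0, g1]
            rw [← pow_two, hq]
            norm_num
            ring
          · rw [leg_im, Complex.add_im, pow_two, Complex.mul_im, leg_re, leg_im, g1]
            norm_num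
            ring
        rw [e]
        exact Or.inr this
  · rintro _ ⟨x, hx | hx, rfl⟩
    · exact Or.inl (pmP hx)
    · right
      have h1 := (tri g1_cont g1_mem).onlybranch hx
      have h2 := (tri g0_cont g0_mem).branch
      have e : pm (-2) x = al (g0 0) := by
        rw [h1, al, al, pm_coe]
        congr 1
        have hq : √(2 + (0 : ℝ) ^ 2) ^ 2 = 2 + 0 ^ 2 := Real.sq_sqrt (by positivity)
        rw [g0, g1, ← Complex.ofReal_pow, hq]
        norm_num
      rw [e]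
      exact h2

theorem ht_leg (t : ℝ) : ht 1 (leg g0 t) = leg g1 t := by
  apply Complex.ext
  · show (leg g0 t).re + sh _ (leg g0 t).re (leg g0 t).im = _
    rw [leg_re, leg_im, leg_re, g0, g1, sh]
    simp
  · show (leg g0 t).im = _
    rw [leg_im, leg_im]

theorem ht_re (t : unitInterval) (x : ℝ) : ht t (x : ℂ) = ((x + sh t x 0 : ℝ) : ℂ) := by
  apply Complex.ext
  · show ((x : ℝ) : ℂ).re + sh _ ((x : ℝ) : ℂ).re ((x : ℝ) : ℂ).im = _
    rw [Complex.ofReal_re, Complex.ofReal_im, Complex.ofReal_re]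
  · show ((x : ℝ) : ℂ).im = _
    rw [Complex.ofReal_im, Complex.ofReal_im]

theorem iso3 : Isotopic (PS (-2)) (T3 g0) (T3 g1) := by
  refine iso_of ht_cont 2 ht_norm ht_bij ht_zero ?_ ?_
  · intro t z hz
    have hcase : z = ((-2 : ℝ) : ℂ) ∨ z = ((2 : ℝ) : ℂ) := by
      rw [PS2] at hz
      rcases hz with hz | hz | hz
      · left
        rw [OnePoint.coe_injective hz]
        norm_num
      · right
        rw [OnePoint.coe_injective hz]
        norm_num
      · exact absurd hz (OnePoint.coe_ne_infty _)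
    rcases hcase with rfl | rfl
    · rw [ht_re, sh_far (by norm_num), add_zero]
    · rw [ht_re, sh_far (by norm_num), add_zero]
  · ext y
    constructor
    · rintro ⟨x, hx | hx, rfl⟩
      · obtain ⟨x, hx, rfl⟩ := hx
        left
        have hm : StrictMono (fun x => x + sh ((1 : unitInterval) : ℝ) x 0) := sh_mono (1 : unitInterval).2.1 (1 : unitInterval).2.2 0
        have h1 : -2 + sh ((1 : unitInterval) : ℝ) (-2) 0 ≤ x + sh ((1 : unitInterval) : ℝ) x 0 := hm.monotone hx.1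
        have h2 : x + sh ((1 : unitInterval) : ℝ) x 0 ≤ 2 + sh ((1 : unitInterval) : ℝ) 2 0 := hm.monotone hx.2
        have z1 : sh ((1 : unitInterval) : ℝ) (-2) 0 = 0 := sh_far (by norm_num)
        have z2 : sh ((1 : unitInterval) : ℝ) 2 0 = 0 := sh_far (by norm_num)
        rw [z1, add_zero] at h1
        rw [z2, add_zero] at h2
        refine ⟨x + sh ((1 : unitInterval) : ℝ) x 0, ⟨h1, h2⟩, ?_⟩
        rw [al, al, OnePoint.map_some, ht_re]
      · right
        rcases ray_elim hx with rfl | ⟨t, ht', rfl⟩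
        · exact inf_mem_ray _ le_rfl zero_le_one
        · rw [OnePoint.map_some, ht_leg]
          exact mem_ray _ ht'
    · rintro (hy | hy)
      · obtain ⟨x, hx, rfl⟩ := hy
        obtain ⟨u, hu, e⟩ := sh_onto ((1 : unitInterval) : ℝ) 0 (b := 2) (by norm_num) (y := x) (abs_le.mpr hx)
        refine ⟨al u, Or.inl ⟨u, abs_le.mp hu, rfl⟩, ?_⟩
        rw [al, al, OnePoint.map_some, ht_re, e]
      · rcases ray_elim hy with rfl | ⟨t, ht', rfl⟩
        · exact ⟨OnePoint.infty, Or.inr (inf_mem_ray _ le_rfl zero_le_one), rfl⟩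
        · refine ⟨((leg g0 t : ℂ) : S2), Or.inr (mem_ray _ ht'), ?_⟩
          rw [OnePoint.map_some, ht_leg]

/-- the three invariant ivy objects -/
theorem three : (PS (-2)).Finite ∧ ∃ C₁ ∈ Ivy (-2), ∃ C₂ ∈ Ivy (-2), ∃ C₃ ∈ Ivy (-2),
    C₁ ≠ C₂ ∧ C₁ ≠ C₃ ∧ C₂ ≠ C₃ ∧ Pull (-2) C₁ C₁ ∧ Pull (-2) C₂ C₂ ∧ Pull (-2) C₃ C₃ := by
  have s3 := span3 g0_cont g0_mem
  refine ⟨?_, cls (PS (-2)) T1, ⟨T1, span1, rfl⟩, cls (PS (-2)) T2, ⟨T2, span2, rfl⟩,
    cls (PS (-2)) (T3 g0), ⟨T3 g0, s3, rfl⟩, ?_, ?_, ?_, ?_, ?_, ?_⟩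
  · rw [PS2]
    exact toFinite _
  · exact (cls_ne span1 bP pre2 cut1).symm
  · exact (cls_ne span1 bP (pre3 g0_cont g0_mem) cut1).symm
  · exact (cls_ne span2 iP (pre3' g0_cont g0_mem) cut2).symm
  · exact ⟨T1, mem_cls span1, T1, mem_cls span1, dyn1⟩
  · exact ⟨T2, mem_cls span2, T2, mem_cls span2, dyn2⟩
  · exact ⟨T3 g0, mem_cls s3, T3 g1, ⟨span3 g1_cont g1_mem, iso3⟩, dyn3⟩

end Pool.Agent.T2H57.IV
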