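import Pool.Agent.T2H57.IV.Sph

/-! # The isotopy of the tripods -/

set_option autoImplicit false

namespace Pool.Agent.T2H57.IV

open Set Topology Filter

/-- the shift -/
noncomputable def sh (t x w : ℝ) : ℝ := t * √(2 + w ^ 2) * max 0 (1 - |x| / (2 + |w|))

/-- the isotopy -/
noncomputable def ht (t : unitInterval) (z : ℂ) : ℂ := ⟨z.re + sh t z.re z.im, z.im⟩

theorem sq_lt (w : ℝ) : √(2 + w ^ 2) < 2 + |w| := by
  rw [Real.sqrt_lt' (by positivity)]
  have := abs_nonneg w
  have h2 : |w| ^ 2 = w ^ 2 := sq_abs w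
  nlinarith

theorem sh_nonneg {t : ℝ} (h0 : 0 ≤ t) (x w : ℝ) : 0 ≤ sh t x w :=
  mul_nonneg (mul_nonneg h0 (Real.sqrt_nonneg _)) (le_max_left _ _)

theorem sh_le {t : ℝ} (h0 : 0 ≤ t) (h1 : t ≤ 1) (x w : ℝ) : sh t x w ≤ 2 + |w| := by
  have hs := Real.sqrt_nonneg (2 + w ^ 2)
  have h2 : max 0 (1 - |x| / (2 + |w|)) ≤ 1 := max_le zero_le_one (by
    have : 0 ≤ |x| / (2 + |w|) := by positivity
    linarith)
  have h3 : t * √(2 + w ^ 2) ≤ √(2 + w ^ 2) := by nlinarith
  have h4 : t * √(2 + w ^ 2) * max 0 (1 - |x| / (2 + |w|)) ≤ t * √(2 + w ^ 2) * 1 :=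
    mul_le_mul_of_nonneg_left h2 (mul_nonneg h0 hs)
  have := sq_lt w
  unfold sh
  linarith

theorem ht_norm (t : unitInterval) (z : ℂ) : ‖z‖ ≤ 2 * ‖ht t z‖ + 2 := by
  have h1 : z = ht t z - ((sh t z.re z.im : ℝ) : ℂ) := by
    apply Complex.ext
    · simp [ht]
    · simp [ht]
  have h2 : |z.im| ≤ ‖ht t z‖ := Complex.abs_im_le_norm (ht t z)
  have h3 := sh_le t.2.1 t.2.2 z.re z.im
  have h4 := sh_nonneg t.2.1 z.re z.im
  calc ‖z‖ = ‖ht t z - ((sh t z.re z.im : ℝ) : ℂ)‖ := by rw [← h1]
    _ ≤ ‖ht t z‖ + ‖((sh t z.re z.im : ℝ) : ℂ)‖ := norm_sub_le _ _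
    _ = ‖ht t z‖ + sh t z.re z.im := by rw [Complex.norm_real, Real.norm_eq_abs, abs_of_nonneg h4]
    _ ≤ _ := by linarith

theorem ht_cont : Continuous (fun q : unitInterval × ℂ => ht q.1 q.2) := by
  have e : (fun q : unitInterval × ℂ => ht q.1 q.2) =
      fun q => (((q.2.re + sh q.1 q.2.re q.2.im : ℝ) : ℂ) + ((q.2.im : ℝ) : ℂ) * Complex.I) := by
    funext q
    apply Complex.ext
    · simp [ht]
    · simp [ht]
  rw [e]
  have hsh : Continuous (fun q : unitInterval × ℂ => sh q.1 q.2.re q.2.im) := by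
    unfold sh
    have h1 : Continuous (fun q : unitInterval × ℂ => |q.2.re| / (2 + |q.2.im|)) := by
      apply Continuous.div
      · exact (Complex.continuous_re.comp continuous_snd).abs
      · exact continuous_const.add (Complex.continuous_im.comp continuous_snd).abs
      · intro q
        positivity
    have h2 : Continuous (fun q : unitInterval × ℂ => √(2 + q.2.im ^ 2)) :=
      (continuous_const.add ((Complex.continuous_im.comp continuous_snd).pow 2)).sqrt
    have h3 : Continuous (fun q : unitInterval × ℂ => (q.1 : ℝ)) := continuous_subtype_val.comp continuous_fst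
    exact (h3.mul h2).mul (continuous_const.max (continuous_const.sub h1))
  have hre : Continuous (fun q : unitInterval × ℂ => q.2.re) := Complex.continuous_re.comp continuous_snd
  have him : Continuous (fun q : unitInterval × ℂ => q.2.im) := Complex.continuous_im.comp continuous_snd
  exact (Complex.continuous_ofReal.comp (hre.add hsh)).add ((Complex.continuous_ofReal.comp him).mul continuous_const)

/-- the shift is strictly monotone -/
theorem sh_mono {t : ℝ} (h0 : 0 ≤ t) (h1 : t ≤ 1) (w : ℝ) : StrictMono (fun x => x + sh t x w) := by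
  intro x y hxy
  have hb : 0 < 2 + |w| := by positivity
  have hs := Real.sqrt_nonneg (2 + w ^ 2)
  have ha : t * √(2 + w ^ 2) < 2 + |w| := by
    have := sq_lt w
    nlinarith
  have ha0 : 0 ≤ t * √(2 + w ^ 2) := mul_nonneg h0 hs
  have hlip : max 0 (1 - |x| / (2 + |w|)) - max 0 (1 - |y| / (2 + |w|)) ≤ (y - x) / (2 + |w|) := by
    have h2 : |y| ≤ |x| + (y - x) := by
      have := abs_add_le x (y - x)
      rw [abs_of_pos (sub_pos.mpr hxy)] at this
      simpa using this
    have h3 : |y| / (2 + |w|) ≤ |x| / (2 + |w|) + (y - x) / (2 + |w|) := by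
      rw [← add_div]
      exact div_le_div_of_nonneg_right h2 hb.le
    have h4 : 0 < (y - x) / (2 + |w|) := div_pos (sub_pos.mpr hxy) hb
    rw [sub_le_iff_le_add]
    apply max_le
    · have := le_max_left 0 (1 - |y| / (2 + |w|))
      linarith
    · have := le_max_right 0 (1 - |y| / (2 + |w|))
      linarith
  show x + sh t x w < y + sh t y w
  unfold sh
  have h5 := mul_le_mul_of_nonneg_left hlip ha0
  have h6 : t * √(2 + w ^ 2) * ((y - x) / (2 + |w|)) < y - x := by
    rw [mul_div_assoc', div_lt_iff₀ hb, mul_comm (y - x)]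
    exact mul_lt_mul_of_pos_right ha (sub_pos.mpr hxy)
  rw [mul_sub] at h5
  linarith

theorem sh_far {t x w : ℝ} (h : 2 + |w| ≤ |x|) : sh t x w = 0 := by
  have hb : 0 < 2 + |w| := by positivity
  have : max 0 (1 - |x| / (2 + |w|)) = 0 := by
    apply max_eq_left
    have : 1 ≤ |x| / (2 + |w|) := by
      rw [le_div_iff₀ hb]
      linarith
    linarith
  rw [sh, this, mul_zero]

theorem sh_cont (t w : ℝ) : Continuous (fun x => x + sh t x w) := by
  unfold sh
  have hb : 2 + |w| ≠ 0 := by positivity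
  exact continuous_id.add (continuous_const.mul (continuous_const.max (continuous_const.sub
    (continuous_abs.div_const _))))

theorem sh_onto (t w : ℝ) {b : ℝ} (hb : 2 + |w| ≤ b) {y : ℝ} (hy : |y| ≤ b) : ∃ x, |x| ≤ b ∧ x + sh t x w = y := by
  have h0 : 0 ≤ b := le_trans (by positivity) hb
  have hy' := abs_le.mp hy
  have e1 : sh t (-b) w = 0 := sh_far (by rw [abs_neg, abs_of_nonneg h0]; exact hb)
  have e2 : sh t b w = 0 := sh_far (by rw [abs_of_nonneg h0]; exact hb)
  obtain ⟨x, hx, e⟩ := intermediate_value_Icc (show -b ≤ b by linarith) (sh_cont t w).continuousOn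
    (show y ∈ Icc (-b + sh t (-b) w) (b + sh t b w) by rw [e1, e2, add_zero, add_zero]; exact hy')
  exact ⟨x, abs_le.mpr hx, e⟩

theorem ht_bij (t : unitInterval) : Function.Bijective (ht t) := by
  constructor
  · intro z z' e
    have e1 := congrArg Complex.im e
    have e2 := congrArg Complex.re e
    have h1 : z.im = z'.im := e1
    have h2 : z.re + sh t z.re z.im = z'.re + sh t z'.re z'.im := e2
    rw [← h1] at h2
    exact Complex.ext ((sh_mono t.2.1 t.2.2 z.im).injective h2) h1
  · intro z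
    obtain ⟨x, -, hx⟩ := sh_onto t z.im (b := max (2 + |z.im|) |z.re|) (le_max_left _ _) (le_max_right _ _)
    exact ⟨⟨x, z.im⟩, Complex.ext hx rfl⟩

theorem ht_zero (z : ℂ) : ht 0 z = z := by
  apply Complex.ext
  · simp [ht, sh]
  · rfl

end Pool.Agent.T2H57.IV
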