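import Pool.Agent.T2H57.IV.Abs

/-! # Rays and isotopies of the sphere -/

set_option autoImplicit false

namespace Pool.Agent.T2H57.IV

open Set Topology Filter

theorem mem_nhds_inf {U : Set S2} :
    U ∈ 𝓝 (OnePoint.infty : S2) ↔ OnePoint.infty ∈ U ∧ ∃ R : ℝ, ∀ z : ℂ, R ≤ ‖z‖ → (z : S2) ∈ U := by
  rw [OnePoint.nhds_infty_eq, coclosedCompact_eq_cocompact, ← Metric.cobounded_eq_cocompact,
    ← comap_norm_atTop, mem_sup, mem_pure, mem_map, mem_comap, and_comm]
  constructor
  · rintro ⟨h1, V, hV, hVU⟩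
    obtain ⟨R, hR⟩ := mem_atTop_sets.mp hV
    exact ⟨h1, R, fun z hz => hVU (hR _ hz)⟩
  · rintro ⟨h1, R, hR⟩
    exact ⟨h1, Ici R, Ici_mem_atTop R, fun z hz => hR z hz⟩

/-- a curve through infinity -/
noncomputable def ray (F : ℝ → ℂ) (s : ℝ) : S2 := if s = 0 then OnePoint.infty else ((F (1 / s) : ℂ) : S2)

theorem ray_zero (F : ℝ → ℂ) : ray F 0 = OnePoint.infty := by simp [ray]

theorem ray_ne (F : ℝ → ℂ) {s : ℝ} (hs : s ≠ 0) : ray F s = ((F (1 / s) : ℂ) : S2) := by simp [ray, hs]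

theorem ray_inv (F : ℝ → ℂ) {t : ℝ} (ht : t ≠ 0) : ray F (1 / t) = ((F t : ℂ) : S2) := by
  rw [ray_ne F (one_div_ne_zero ht), one_div_one_div]

theorem ray_cont {F : ℝ → ℂ} (hF : Continuous F) (C : ℝ) (h : ∀ t, |t| ≤ ‖F t‖ + C) : Continuous (ray F) := by
  rw [continuous_iff_continuousAt]
  intro s
  by_cases hs : s = 0
  · subst hs
    rw [ContinuousAt, ray_zero]
    intro U hU
    obtain ⟨h1, R, hR⟩ := mem_nhds_inf.mp hU
    rw [mem_map, Metric.mem_nhds_iff]
    refine ⟨1 / (|R| + |C| + 1), by positivity, ?_⟩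
    intro s hs
    rw [Metric.mem_ball, dist_zero_right, Real.norm_eq_abs] at hs
    by_cases h0 : s = 0
    · rw [mem_preimage, h0, ray_zero]
      exact h1
    · rw [mem_preimage, ray_ne F h0]
      apply hR
      have h2 := h (1 / s)
      have hsp : 0 < |s| := abs_pos.mpr h0
      have h3 : |R| + |C| + 1 ≤ |1 / s| := by
        rw [abs_div, abs_one, le_div_iff₀ hsp]
        have hp : 0 < |R| + |C| + 1 := by positivity
        have := (lt_div_iff₀ hp).mp hs
        linarith
      have := le_abs_self R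
      have := le_abs_self C
      linarith
  · have h1 : ContinuousAt (fun s : ℝ => ((F (1 / s) : ℂ) : S2)) s := by
      have h2 : ContinuousAt (fun s : ℝ => F (1 / s)) s :=
        ContinuousAt.comp (f := fun s : ℝ => 1 / s) hF.continuousAt
          (continuousAt_const.div continuousAt_id hs)
      exact ContinuousAt.comp (f := fun s : ℝ => F (1 / s)) OnePoint.continuous_coe.continuousAt h2
    refine h1.congr ?_
    filter_upwards [isOpen_ne.mem_nhds hs] with t ht
    rw [ray_ne F ht]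

theorem ray_inj {F : ℝ → ℂ} (hF : Function.Injective F) : Function.Injective (ray F) := by
  intro s t e
  by_cases hs : s = 0 <;> by_cases ht : t = 0
  · rw [hs, ht]
  · rw [hs, ray_zero, ray_ne F ht] at e
    exact absurd e (OnePoint.infty_ne_coe _)
  · rw [ht, ray_zero, ray_ne F hs] at e
    exact absurd e (OnePoint.coe_ne_infty _)
  · rw [ray_ne F hs, ray_ne F ht] at e
    have h1 := hF (OnePoint.coe_injective e)
    rw [one_div, one_div] at h1
    exact inv_injective h1

theorem ray_br {F : ℝ → ℂ} (hF : Continuous F) (C : ℝ) (h : ∀ t, |t| ≤ ‖F t‖ + C) (hi : Function.Injective F)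
    {a b : ℝ} (hab : a < b) : Br (ray F) a b :=
  ⟨hab, (ray_cont hF C h).continuousOn, (ray_inj hi).injOn⟩

theorem mem_ray (F : ℝ → ℂ) {t : ℝ} (ht : 1 ≤ t) : ((F t : ℂ) : S2) ∈ ray F '' Icc 0 1 := by
  have h0 : 0 < t := by linarith
  refine ⟨1 / t, ⟨by positivity, ?_⟩, ray_inv F h0.ne'⟩
  rw [div_le_one h0]
  exact ht

theorem mem_ray2 (F : ℝ → ℂ) {t : ℝ} (ht : 1 ≤ |t|) : ((F t : ℂ) : S2) ∈ ray F '' Icc (-1) 1 := by
  have h0 : t ≠ 0 := by
    rintro rfl
    norm_num at ht
  refine ⟨1 / t, ?_, ray_inv F h0⟩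
  rw [mem_Icc, ← abs_le, abs_div, abs_one, div_le_one (by linarith)]
  exact ht

theorem inf_mem_ray (F : ℝ → ℂ) {a b : ℝ} (ha : a ≤ 0) (hb : 0 ≤ b) : (OnePoint.infty : S2) ∈ ray F '' Icc a b :=
  ⟨0, ⟨ha, hb⟩, ray_zero F⟩

theorem ray_elim {F : ℝ → ℂ} {y : S2} (h : y ∈ ray F '' Icc 0 1) :
    y = OnePoint.infty ∨ ∃ t, 1 ≤ t ∧ y = ((F t : ℂ) : S2) := by
  obtain ⟨s, ⟨h0, h1⟩, rfl⟩ := h
  by_cases hs : s = 0
  · left; rw [hs, ray_zero]
  · right
    have hp : 0 < s := lt_of_le_of_ne h0 (Ne.symm hs)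
    refine ⟨1 / s, ?_, ray_ne F hs⟩
    rw [le_div_iff₀ hp]
    linarith

theorem ray_elim2 {F : ℝ → ℂ} {y : S2} (h : y ∈ ray F '' Icc (-1) 1) :
    y = OnePoint.infty ∨ ∃ t, 1 ≤ |t| ∧ y = ((F t : ℂ) : S2) := by
  obtain ⟨s, h1, rfl⟩ := h
  by_cases hs : s = 0
  · left; rw [hs, ray_zero]
  · right
    have hp : 0 < |s| := abs_pos.mpr hs
    refine ⟨1 / s, ?_, ray_ne F hs⟩
    rw [abs_div, abs_one, le_div_iff₀ hp, one_mul]
    exact abs_le.mpr h1

/-! the isotopy -/

/-- extension of a map of the plane -/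
noncomputable def ext {Y : Type} (h : Y → ℂ → ℂ) (q : Y × S2) : S2 := OnePoint.map (h q.1) q.2

theorem ext_cont {Y : Type} [TopologicalSpace Y] {h : Y → ℂ → ℂ} (hc : Continuous (fun q : Y × ℂ => h q.1 q.2))
    (C : ℝ) (hn : ∀ y z, ‖z‖ ≤ 2 * ‖h y z‖ + C) : Continuous (ext h) := by
  rw [continuous_iff_continuousAt]
  rintro ⟨y, x⟩
  induction x using OnePoint.rec with
  | infty =>
    have e : ext h (y, OnePoint.infty) = OnePoint.infty := rfl
    rw [ContinuousAt, e]
    intro U hU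
    obtain ⟨h1, R, hR⟩ := mem_nhds_inf.mp hU
    have hV : ({OnePoint.infty} ∪ OnePoint.some '' {z : ℂ | 2 * R + C ≤ ‖z‖} : Set S2) ∈ 𝓝 (OnePoint.infty : S2) := by
      rw [mem_nhds_inf]
      refine ⟨Or.inl rfl, 2 * R + C, ?_⟩
      intro z hz
      exact Or.inr ⟨z, hz, rfl⟩
    rw [mem_map]
    refine mem_of_superset (prod_mem_nhds univ_mem hV) ?_
    rintro ⟨y', x'⟩ ⟨-, hx'⟩
    rcases hx' with hx' | ⟨z, hz, hx'⟩
    · rw [mem_singleton_iff] at hx'
      simp only at hx'
      rw [mem_preimage, hx']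
      exact h1
    · simp only at hx'
      rw [mem_preimage, ← hx']
      apply hR
      have := hn y' z
      have hz' : 2 * R + C ≤ ‖z‖ := hz
      linarith
  | coe z =>
    have hemb : IsOpenEmbedding (Prod.map id OnePoint.some : Y × ℂ → Y × S2) :=
      IsOpenEmbedding.id.prodMap OnePoint.isOpenEmbedding_coe
    have := hemb.continuousAt_iff (g := ext h) (x := (y, z))
    rw [show Prod.map id OnePoint.some (y, z) = (y, (z : S2)) from rfl] at this
    rw [← this]
    have e : ext h ∘ (Prod.map id OnePoint.some : Y × ℂ → Y × S2) = OnePoint.some ∘ (fun q : Y × ℂ => h q.1 q.2) := by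
      ext ⟨a, b⟩
      rfl
    rw [e]
    exact (OnePoint.continuous_coe.comp hc).continuousAt

theorem map_bij {f : ℂ → ℂ} (hf : Function.Bijective f) : Function.Bijective (OnePoint.map f : S2 → S2) := by
  constructor
  · intro x y e
    induction x using OnePoint.rec with
    | infty =>
      induction y using OnePoint.rec with
      | infty => rfl
      | coe w =>
        rw [OnePoint.map_infty, OnePoint.map_some] at e
        exact absurd e (OnePoint.infty_ne_coe _)
    | coe z =>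
      induction y using OnePoint.rec with
      | infty =>
        rw [OnePoint.map_infty, OnePoint.map_some] at e
        exact absurd e (OnePoint.coe_ne_infty _)
      | coe w =>
        rw [OnePoint.map_some, OnePoint.map_some] at e
        rw [hf.1 (OnePoint.coe_injective e)]
  · intro y
    induction y using OnePoint.rec with
    | infty => exact ⟨OnePoint.infty, rfl⟩
    | coe w =>
      obtain ⟨z, rfl⟩ := hf.2 w
      exact ⟨z, rfl⟩

theorem iso_of {h : unitInterval → ℂ → ℂ} (hc : Continuous (fun q : unitInterval × ℂ => h q.1 q.2))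
    (C : ℝ) (hn : ∀ y z, ‖z‖ ≤ 2 * ‖h y z‖ + C) (hb : ∀ t, Function.Bijective (h t)) (h0 : ∀ z, h 0 z = z)
    {P T T' : Set S2} (hP : ∀ t, ∀ z : ℂ, (z : S2) ∈ P → h t z = z)
    (hT : (OnePoint.map (h 1) : S2 → S2) '' T = T') : Isotopic P T T' := by
  have hcont := ext_cont hc C hn
  refine ⟨fun t => OnePoint.map (h t), hcont, ?_, ?_, ?_, hT⟩
  · intro t
    rw [isHomeomorph_iff_continuous_bijective]
    exact ⟨hcont.comp (continuous_const.prodMk continuous_id), map_bij (hb t)⟩
  · intro x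
    induction x using OnePoint.rec with
    | infty => rfl
    | coe z =>
      show ((h 0 z : ℂ) : S2) = z
      rw [h0]
  · intro t x hx
    induction x using OnePoint.rec with
    | infty => rfl
    | coe z =>
      show ((h t z : ℂ) : S2) = z
      rw [hP t z hx]

theorem iso_refl {X : Type} [TopologicalSpace X] (P T : Set X) : Isotopic P T T :=
  ⟨fun _ x => x, continuous_snd, fun _ => IsHomeomorph.id, fun _ => rfl, fun _ _ _ => rfl, image_id T⟩

theorem pre_iso {X : Type} [TopologicalSpace X] {P T T' : Set X} (h : Isotopic P T T') {x : X} (hx : x ∈ P)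
    (hp : IsPreconnected (T \ {x})) : IsPreconnected (T' \ {x}) := by
  obtain ⟨H, -, hH, -, hP, hT⟩ := h
  have e : H 1 '' (T \ {x}) = T' \ {x} := by
    rw [image_sdiff (hH 1).injective, hT, image_singleton, hP 1 x hx]
  rw [← e]
  exact hp.image _ (hH 1).continuous.continuousOn

theorem cls_ne {X : Type} [TopologicalSpace X] {P T T' : Set X} (hT' : Span P T') {x : X} (hx : x ∈ P)
    (hp : IsPreconnected (T \ {x})) (hp' : ¬ IsPreconnected (T' \ {x})) : cls P T ≠ cls P T' := by
  intro e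
  have h1 : T' ∈ cls P T := by
    rw [e]
    exact ⟨hT', iso_refl P T'⟩
  exact hp' (pre_iso h1.2 hx hp)

theorem mem_cls {X : Type} [TopologicalSpace X] {P T : Set X} (hT : Span P T) : T ∈ cls P T := ⟨hT, iso_refl P T⟩

end Pool.Agent.T2H57.IV
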